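import Pool.Agent.H.MP_3865e9_co.A

namespace Pool.Agent.Results.MP_3865e9_co.Six

open Matrix

open Classical in
noncomputable def skew {n : ℕ} (r : Fin n → Fin n → Prop) : Matrix (Fin n) (Fin n) ℂ :=
  fun a b => if r a b then 1 else if r b a then -1 else 0

noncomputable def U {n : ℕ} (r : Fin n → Fin n → Prop) (t : ℝ) : Matrix (Fin n) (Fin n) ℂ :=
  NormedSpace.exp (((t : ℂ) * Complex.I) • (Complex.I • skew r))

open Pool.Agent.H.MP_3865e9_co.A

theorem skew_eq : skew (fun u v => arc u v = true) = S := by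
  funext u v
  simp only [skew, S, Z]
  split_ifs <;> simp

theorem result : ∃ (n : ℕ) (r : Fin n → Fin n → Prop), (∀ a b, r a b → ¬ r b a) ∧
    ∃ T : Finset (Fin n), T.card = 6 ∧ ∀ a ∈ T, ∀ b ∈ T, a ≠ b → ∃ (t : ℝ) (α : ℂ),
      U r t *ᵥ Pi.single a 1 = α • Pi.single b 1 := by
  refine ⟨102, fun u v => arc u v = true, asym, Finset.univ.filter (·.1 < 6), by decide +kernel,
    fun a ha b hb _ => ?_⟩
  obtain ⟨t, ht⟩ := all a b (Finset.mem_filter.1 ha).2 (Finset.mem_filter.1 hb).2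
  refine ⟨-t, 1, ?_⟩
  rw [U, skew_eq, smul_smul, one_smul, ← ht]
  congr 3
  push_cast
  linear_combination (-t : ℂ) * Complex.I_mul_I

end Pool.Agent.Results.MP_3865e9_co.Six
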